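import Pool.Agent.H70.NC.Targets

/-!
Module FIN of board nc_modules (MP_64fb07_lc): the theorem.
-/

set_option autoImplicit false

open Finset Filter

namespace Pool.Agent.H34.NC

open Pool.Agent.H70.NC Pool.Agent.H6.NB Pool.Agent.H70.OQ

theorem num_le (l : ℕ → ℕ) {k : ℕ} (M : Mach k) (O : List Bool → Bool) (a : List Bool) (n : ℕ) :
    (num l M O a n : ℝ) ≤ 2 ^ n := by
  classical
  have h : num l M O a n ≤ 2 ^ n := by
    unfold num
    refine (Finset.card_le_univ _).trans (le_of_eq ?_)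
    simp
  exact_mod_cast h

theorem fin_ (h1 : T_FEX) (h2 : T_CPT) (h3 : Pool.Agent.H70.NC.T_NUM) (h4 : T_LOB) :
    Pool.Agent.H70.NC.T_FIN := by
  intro l key F hl hkey hk hF k M A δ hyp
  -- good pairs
  set Q : ℕ × ℕ → Prop := fun e => e.1 + 3 ≤ e.2 ∧ e.2 ≤ l e.2 ∧ (M e.1).time e.2 ≤ pw (l e.2) ∧
    0 ≤ δ e.1 e.2 ∧ bnd (k e.1) e.2 (l e.2) ((M e.1).time e.2)
      (A e.1 e.2 + nkeys key ((M e.1).time e.2)) (δ e.1 e.2) ≤ 1 / 2 ^ e.2 with hQ
  obtain ⟨O, hO1, hO2⟩ := h2 key F hF {e : ℕ × ℕ // Q e}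
    (fun c O => ¬ Bad l (M c.1.1) (A c.1.1 c.1.2) c.1.2 (δ c.1.1 c.1.2) O)
    (fun c => ⟨_, fun O O' hOO => not_congr
      (h4 l (k c.1.1) (M c.1.1) (A c.1.1 c.1.2) c.1.2 (δ c.1.1 c.1.2) O O' hOO)⟩)
    (by
      classical
      intro J
      obtain ⟨O, hO1, hO2⟩ := h1 l key F hl hkey hk hF k M A δ (J.image Subtype.val) (by
        intro e he
        rw [Finset.mem_image] at he
        obtain ⟨c, _, rfl⟩ := he
        exact c.2)
      refine ⟨O, hO1, ?_⟩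
      intro c hc
      exact hO2 c.1 (Finset.mem_image_of_mem _ hc))
  refine ⟨O, hO1, ?_⟩
  intro j
  filter_upwards [hyp j, h3 (k j), eventually_ge_atTop (j + 3)] with n e1 e2 e3
  intro a ha
  obtain ⟨e11, e12, e13, e14⟩ := e1
  by_cases hδ : δ j n ≤ 1 / 2
  · obtain ⟨e4, e5⟩ := e2 (l n) ((M j).time n) (A j n + nkeys key ((M j).time n)) (δ j n) e11 e12 e13
      hδ (by
        push_cast
        linarith)
    have hnl : n ≤ l n := by omega
    have hq : Q (j, n) := ⟨e3, hnl, e4, e13.le, e5⟩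
    have hnb := hO2 ⟨(j, n), hq⟩
    by_contra hcon
    rw [not_le] at hcon
    exact hnb ⟨a, ha, hcon⟩
  · rw [not_le] at hδ
    refine (num_le l (M j) O a n).trans ?_
    have h5 : (0 : ℝ) < 2 ^ n := by positivity
    nlinarith

end Pool.Agent.H34.NC
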